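import Pool.Agent.H24.FD.Fin

/-!
# Symplectic forms on `X × T` which tame an almost complex structure fibred over `X`

`X` is a connected smooth manifold (in the problem, a closed one) with a field `j` of endomorphisms
of its tangent spaces, for instance an almost complex structure, and `T = V / Λ` is a torus of
dimension `2 k`, `Λ` the lattice spanned by a basis `b` of `V`. A symplectic form on `X × T` is the
same thing as a symplectic form on `X × V` that is periodic under `Λ`. Neither the forms nor the
almost complex structures on `X × T` are supposed to be invariant under `T`.

We show that the following are equivalent: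

* `X` has a symplectic form which tames `j`;
* `X × T` has a symplectic form which tames some field `J` of endomorphisms of the tangent spaces of
  `X × T` that is fibred over `j`: the projection `X × T → X` maps `J` to `j`. For instance:
  `X × T` has a symplectic form which tames an almost complex structure `J` such that the
  projection to the almost complex manifold `(X, j)` is pseudoholomorphic; `J` may depend on
  the point of `T`;
* `X × T` has a closed two-form `w` such that for some constant `c` the numbers
  `c w ^ (k + 1) (u, j u, b 1, …, b (2 k))` are positive at all points `(x, t)` and for all nonzero
  vectors `u` in `T_x X`.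

In particular, if `X` has no symplectic form then no symplectic form of `X × T` tames an almost
complex structure for which the projection to `X`, with any almost complex structure of `X`, is
pseudoholomorphic.

The definitions are in `Pool/Agent/H24/FD/Pub.lean`.

Proof: the integral over the fibre of `w ^ (k + 1)` is a closed two-form on `X`. At a point `(x, t)`
where `w` tames `J`, the form `w ^ (k + 1) (u, v, b 1, …, b (2 k))` is the product of
`w ^ k (b 1, …, b (2 k))` and of the form induced by `w` on the orthogonal complement of the
fibre, which is identified with `T_x X`, and this form is positive on `(u, j u)`.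
-/

set_option autoImplicit false

open scoped ContDiff Manifold
open Pool.Agent.H24.FDP

namespace Pool.Agent.Results.MP_9986fc_gt.FibredTaming

theorem result {E X V : Type*} [NormedAddCommGroup E] [NormedSpace ℝ E] [FiniteDimensional ℝ E]
    [NormedAddCommGroup V] [NormedSpace ℝ V] [TopologicalSpace X] [PreconnectedSpace X]
    [ChartedSpace E X] [IsManifold 𝓘(ℝ, E) ∞ X] (k : ℕ) (b : Module.Basis (Fin (2 * k)) ℝ V)
    (j : atlas E X → E → E →ₗ[ℝ] E) :
    List.TFAE [
      ∃ w : atlas E X → E → E → E → ℝ, IsSymplectic (charts E X) w ∧ Tames w j,
      ∃ w : atlas E X → E × V → E × V → E × V → ℝ,
        IsSymplectic (productCharts E X V) w ∧ IsPeriodic b w ∧ TamesFibredOver w j,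
      ∃ (w : atlas E X → E × V → E × V → E × V → ℝ) (c : ℝ),
        IsClosedForm (productCharts E X V) w ∧ IsPeriodic b w ∧ FibrePowerTames b c w j] :=
  Pool.Agent.H24.FD.final k b j

end Pool.Agent.Results.MP_9986fc_gt.FibredTaming
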