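import Mathlib
import Pool.Agent.H33.TM.BriM

/-!
# Limits of almost complex structures which are tamed in the mean

`X` is a closed manifold of dimension `d ≥ 4`, embedded by `F` in a Euclidean space, which gives
lengths of tangent vectors and the area measure.  `J k` are almost complex structures on `X` which
are uniformly bounded in the Hölder space of exponent `a ≤ 1` (for example in `C¹`, with `a = 1`),
and `σ k` are smooth closed two-forms, bounded in `L^p` for some `p > (d - 2) / a`, such that
`σ k (v, J k v) ≥ (1 - g k) |v|²` where the functions `g k` tend to zero in `L¹`: there is no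
positivity on sets whose measure tends to zero, and no bound of `σ k` at any point.  Then `X` has a
symplectic form.  More precisely, a symplectic form tames an almost complex structure which is a
uniform limit point of the sequence `J k`.

For `p > d / a` this follows by mollification; the theorem goes down to `(d - 2) / a`.  Here the
forms are regularized by averages over cut-off translations, and the remaining negative part lives
in balls of small total two-dimensional content.
-/

set_option autoImplicit false

open Set Filter Topology MeasureTheory
open scoped Manifold ContDiff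

noncomputable section

namespace Pool.Agent.Results.MP_9986fc_gt.LimitsInTheMean

open Pool.Agent.Y501.SYP Pool.Agent.Q235.SQP Pool.Agent.H33.TMP

theorem result (d m : ℕ) (hd : 4 ≤ d) (X : Type) [TopologicalSpace X] [ChartedSpace (ES d) X]
    [IsManifold 𝓘(ℝ, ES d) ∞ X] [CompactSpace X] [T2Space X] [MeasurableSpace X] [BorelSpace X]
    (F : X → ES m) (hF : IsEmb (V := ES d) F) (a p : ℝ) (ha : 0 < a) (ha1 : a ≤ 1)
    (hp : ((d : ℝ) - 2) / a < p) (J : ℕ → End (ES d) X) (hJ : ∀ k, IsAlmostComplex (J k))
    (hH : UniformHolder a J) (σ : ℕ → Form (ES d) X 2)
    (hσ : ∀ k, IsSmooth (σ k) ∧ IsClosedForm (σ k)) (g h : ℕ → X → ℝ)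
    (hg : TamesInMean (areaMeasure d F) F J σ g) (hh : BoundedLp (areaMeasure d F) F p σ h) :
    ∃ (J₀ : End (ES d) X) (w : Form (ES d) X 2), IsAlmostComplex J₀ ∧
      UniformHolder a (fun _ => J₀) ∧ UniformLimitPoint F J J₀ ∧ IsTamingSymplectic w J₀ :=
  limits hd F hF a p ha ha1 hp J hJ hH σ hσ g h hg hh

end Pool.Agent.Results.MP_9986fc_gt.LimitsInTheMean
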