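import Mathlib
import Pool.Agent.H33.CD.BriL

/-!
# Almost closed two-forms which tame an almost complex structure up to small balls

`X` is a closed manifold of dimension `d ≥ 4`, embedded by `F` in a Euclidean space, which gives
lengths of tangent vectors, distances and the area measure.  `J` is an almost complex structure on
`X` which is locally Hölder continuous (with any exponent).  There is `ε > 0` with the following
property.  Let `σ` be a smooth two-form, which need not be closed.  Suppose that `|dσ| ≤ g` where
the norm of `g` in the Lorentz space `L^{d-2,1}`,

`∫₀^∞ vol {g > t} ^ (1 / (d - 2)) dt`,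

is at most `ε`, that `σ (v, J v) ≥ |v|²` except in some balls with radii `r i`, in which
`σ (v, J v) ≥ - B i |v|²`, and that the sum of `(1 + B i) (r i)²` is at most `ε`.  Then `J` is
tamed by a symplectic form.

The number `ε` does not depend on `σ`, and no bound for `σ` is assumed.  The condition on `dσ` is
the critical one: `L^{d-2,1}` contains `L^p` for all `p > d - 2`, and it is the space of the
gradients of functions whose traces on two-dimensional sets are under control at the limiting
exponent, where the traces of functions with gradient in `L^{d-2}` are not defined.
The proof uses that the exterior derivative has closed range, in the uniform norm, and that the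
structure currents of a Hölder continuous almost complex structure have two-dimensional density.
-/

set_option autoImplicit false

open Set Filter Topology MeasureTheory
open scoped Manifold ContDiff

noncomputable section

namespace Pool.Agent.Results.MP_9986fc_gt.SmallClosednessDefect

open Pool.Agent.Y501.SYP Pool.Agent.Q235.SQP Pool.Agent.H33.TMP Pool.Agent.H33.CDP

theorem result (d m : ℕ) (hd : 4 ≤ d) (X : Type) [TopologicalSpace X] [ChartedSpace (ES d) X]
    [IsManifold 𝓘(ℝ, ES d) ∞ X] [CompactSpace X] [T2Space X] [MeasurableSpace X] [BorelSpace X]
    (F : X → ES m) (hF : IsEmb (V := ES d) F) (J : End (ES d) X) (hJ : IsAlmostComplex J)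
    (hol : LocHolder J) :
    ∃ ε : ℝ, 0 < ε ∧ ∀ (σ : Form (ES d) X 2) (g : X → ℝ), Measurable g → DefectLe F σ g →
      lorentz d (areaMeasure d F) g ≤ ENNReal.ofReal ε →
      ∀ (ι : Type) (c : ι → X) (r B : ι → ℝ), SmallBalls ε r B → TamesOffBalls F J σ c r B →
      ∃ w : Form (ES d) X 2, IsTamingSymplectic w J :=
  defect_lorentz hd F hF J hJ hol

end Pool.Agent.Results.MP_9986fc_gt.SmallClosednessDefect
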