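import Pool.Agent.H24.VD.Final

/-!
# Closed two-forms with unbounded coefficients and vanishing densities

`X` is a closed manifold and `J` is a locally Hölder continuous (exponent `α`) field of
endomorphisms of its tangent spaces, for instance an almost complex structure. `τ i` are smooth
closed two-forms and `T i` are measurable two-forms such that near every point of `X`, in a chart,
almost everywhere
`T i (u, J u) ≥ lam i |u|²` and `|T i (u, v)| ≤ K (T i (u, J u) T i (v, J v)) ^ (1/2) + h i |u| |v|`
with functions `lam i ≥ c > 0` and `h i ≥ 0` (for instance `J`-invariant forms, with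
`K = 1` and `h i = 0`). The `T i` need not be bounded. Suppose that for some radii
`r i` tending to zero, and all `δ > 0`, the averages of the positive part of

  `(r i)^(2 α) |T i| + (r i)^α h i + |τ i - T i| - δ lam i`

over the balls of radius `r i` tend to zero, locally uniformly. Then, for all large `i`, the
cohomology class of `τ i` contains a symplectic form which tames `J`.

For one form `T` which is the limit in `L¹` of closed forms (a closed current with coefficients
in `L¹`) there are two special cases.

* The averages of `r^(2 α) |T|` and `r^α h` over the balls of radius `r` tend to zero uniformly; for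
  `α = 1` and `h = 0` these are the conditions of vanishing Lelong numbers, uniformly on `X`.
* `T` tames `J` uniformly: `T (u, J u) ≥ κ (1 + |T|) |u|²` for a number `κ > 0`, with no other
  condition on the size of `T`. This case is `Pool.Agent.H24.VDP.final_uniform`.

Proof: embed `X` in a Euclidean space, let `P` be a smooth retraction of a tubular neighbourhood,
and average the pull-backs of `τ i` by the maps `x ↦ P (x + ξ)`, `|ξ| < a r i`.
-/

open Set Filter Topology MeasureTheory
open scoped Manifold ContDiff
open Pool.Agent.Y501.SYP Pool.Agent.H24.VDP

namespace Pool.Agent.Results.MP_9986fc_gt.VanishingDensities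

theorem result (d : ℕ) (X : Type) [TopologicalSpace X] [ChartedSpace (ES d) X]
    [IsManifold 𝓘(ℝ, ES d) ∞ X] [CompactSpace X] [T2Space X]
    (J : End (ES d) X) (α : ℝ) (hα : 0 < α) (hα1 : α ≤ 1) (hJ : LocallyHolder α J)
    (ι : Type) (l : Filter ι) (r : ι → ℝ) (hr : Tendsto r l (𝓝[>] 0))
    (T τ : ι → Form (ES d) X 2) (hτ : ∀ i, IsSmooth (τ i) ∧ IsClosedForm (τ i))
    (hT : ∀ x₀ : X, ControlledNear (leb d) α J l r T τ x₀) :
    ∀ᶠ i in l, ClassTames (τ i) J :=
  final J α hα hα1 hJ ι l r hr T τ hτ hT

end Pool.Agent.Results.MP_9986fc_gt.VanishingDensities
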